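import Pool.Agent.U283.GF.Ex

/-!
# Cuspidal representations of `PGL(2)` without non-vanishing quadratic twists

MP_5f72fe_nt, Q1, asks whether for every irreducible cuspidal automorphic representation `π'` of
`PGL_2(𝔸_ℚ)` there is `c > 0` with `N_{π'}(x) ≥ c x` for all large `x`, where `N_{π'}(x)` is the
number of quadratic extensions `E` of `ℚ` with `|Δ_E| < x` and `L(1/2, π' ⊗ η_E) ≠ 0`.  We disprove
this: there are infinitely many `π'` with `L(1/2, π' ⊗ η_E) = 0` for EVERY quadratic extension `E`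
of `ℚ`, so that `N_{π'}(x) = 0` for all `x`.

The representations are dihedral Maass forms of level `25`.  Let `K = ℚ(√5)`,
`ω = (1 + √5)/2` and `v = (2k+1)π/(2 log ω)`, `k = 0, 1, 2, ...`.  There is a primitive Hecke
character `ψ` of `K` of conductor `(√5)` with `ψ((α)) = χ₅(α mod √5) |α/α'|^(iv)`, where `χ₅` is the
quadratic character of `𝓞/(√5) = 𝔽₅`.  Its automorphic induction `π' = AI(ψ)` (Maass 1949,
Jacquet-Langlands 1970) is cuspidal because `ψ` differs from its conjugate, its central character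
is trivial because `ψ((p))` is `1` for split and `-1` for inert primes `p`, and
`L(s, π' ⊗ η) = ∑ ψ(𝔞) η(N𝔞) N𝔞^(-s)`.  All the local components of `π'` are principal series, and
the root number of `π' ⊗ η_E` is `-1` for all `E`.

What is proved in Lean: existence and primitivity of `ψ`; the properties of `ψ` which say that `π'`
is cuspidal with trivial central character; for every primitive quadratic Dirichlet character `η`
(including those of conductor divisible by `5`), primitivity of `𝔞 ↦ ψ(𝔞) η(N𝔞)`, the continuation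
of its L-function to an entire function, the functional equation with its sign `-1` (through the
Gauss sum of the norm form) and the vanishing at `1/2`.  The continuation and the functional
equation up to the sign are those of the starting modules `Pool.Agent.Y767`, `Y772`, `Y773`.
-/

set_option autoImplicit false

open NumberField Module Filter Topology

namespace Pool.Agent.Results.MP_5f72fe_nt.NoNonvanishingTwist

section

variable (K : Type) [Field K] [NumberField K]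

/-- `x` is totally positive. -/
def TotPos (x : 𝓞 K) : Prop := ∀ σ : K →+* ℝ, 0 < σ (x : K)

/-- `∏_w |x|_w^(i ν_w)`, the product being over the infinite places of `K`. -/
noncomputable def arch (ν : InfinitePlace K → ℝ) (x : K) : ℂ :=
  Complex.exp (Complex.I * ((∑ w, ν w * Real.log (w x) : ℝ) : ℂ))

/-- `ψ`, as a function on the ideals of the totally real field `K` (zero on the ideals which are not
prime to `𝔣`), is a primitive unitary Hecke character of finite conductor `𝔣` and infinity type `ν`,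
with arbitrary signs at the real places. -/
structure IsHecke (𝔣 : Ideal (𝓞 K)) (ν : InfinitePlace K → ℝ) (ψ : Ideal (𝓞 K) →*₀ ℂ) : Prop where
  ne_bot : 𝔣 ≠ ⊥
  supp : ∀ 𝔞 : Ideal (𝓞 K), 𝔞 ≠ ⊥ → (ψ 𝔞 ≠ 0 ↔ IsCoprime 𝔞 𝔣)
  ray : ∀ x : 𝓞 K, x - 1 ∈ 𝔣 → TotPos K x → ψ (Ideal.span {x}) = arch K ν (x : K)
  prim : ∀ 𝔤 : Ideal (𝓞 K), 𝔤 ∣ 𝔣 → 𝔤 ≠ 𝔣 → ∃ x : 𝓞 K, x - 1 ∈ 𝔤 ∧ TotPos K x ∧
    IsCoprime (Ideal.span {x}) 𝔣 ∧ ψ (Ideal.span {x}) ≠ arch K ν (x : K)

end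

/-- A dihedral cuspidal automorphic representation `π' = AI(ψ)` of `PGL_2(𝔸_ℚ)`, given by a unitary
Hecke character `ψ` of a real quadratic field `K`. -/
structure DihedralRep where
  /-- the real quadratic field -/
  K : Type
  [field : Field K]
  [numberField : NumberField K]
  degree : finrank ℚ K = 2
  real : IsTotallyReal K
  /-- the finite conductor -/
  𝔣 : Ideal (𝓞 K)
  /-- the infinity type -/
  ν : InfinitePlace K → ℝ
  /-- the Hecke character -/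
  ψ : Ideal (𝓞 K) →*₀ ℂ
  hecke : IsHecke K 𝔣 ν ψ
  /-- normalisation: no twist by a power of the norm -/
  unitary : ∑ w, ν w = 0
  /-- The central character `p ↦ η_K(p) ψ((p))` of `π'` is trivial; this is the case of the primes
  which split in `K` ... -/
  central_split : ∀ p : ℕ, p.Prime → ¬ p ∣ Ideal.absNorm 𝔣 → ¬ (p : ℤ) ∣ discr K →
    (∃ 𝔭 : Ideal (𝓞 K), Ideal.absNorm 𝔭 = p) → ψ (Ideal.span {(p : 𝓞 K)}) = 1
  /-- ... and of those which are inert in `K`. -/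
  central_inert : ∀ p : ℕ, p.Prime → ¬ p ∣ Ideal.absNorm 𝔣 → ¬ (p : ℤ) ∣ discr K →
    (Ideal.span {(p : 𝓞 K)}).IsPrime → ψ (Ideal.span {(p : 𝓞 K)}) = -1
  /-- `ψ` differs from its Galois conjugate, so that `π'` is cuspidal. -/
  cuspidal : ∃ (p : ℕ) (𝔭 𝔭' : Ideal (𝓞 K)), p.Prime ∧ ¬ p ∣ Ideal.absNorm 𝔣 ∧
    Ideal.absNorm 𝔭 = p ∧ Ideal.absNorm 𝔭' = p ∧ ψ 𝔭 ≠ ψ 𝔭'

attribute [instance] DihedralRep.field DihedralRep.numberField

/-- `η` is a primitive quadratic Dirichlet character of conductor `q`, i.e. `η = η_E` for a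
quadratic extension `E` of `ℚ` (unique up to isomorphism) with `|Δ_E| = q`. -/
def IsQuadratic {q : ℕ} (η : DirichletCharacter ℂ q) : Prop :=
  1 ≤ q ∧ η.IsPrimitive ∧ η ≠ 1 ∧ η ^ 2 = 1

/-- `𝔞 ↦ ψ(𝔞) η(N𝔞)` -/
noncomputable def twist {K : Type} [Field K] [NumberField K] (ψ : Ideal (𝓞 K) →*₀ ℂ) {q : ℕ}
    (η : DirichletCharacter ℂ q) : Ideal (𝓞 K) →*₀ ℂ where
  toFun 𝔞 := ψ 𝔞 * η ((Ideal.absNorm 𝔞 : ℕ) : ZMod q)
  map_zero' := by rw [map_zero, zero_mul]
  map_one' := by rw [map_one, map_one, Nat.cast_one, map_one, one_mul]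
  map_mul' 𝔞 𝔟 := by
    simp only [map_mul, Nat.cast_mul]
    ring

/-- `L` is the standard L-function `L(s, π' ⊗ η)`, `π' ⊗ η = AI(ψ · η∘N)`: the function
`ψ · η∘N` on the ideals is a primitive Hecke character of some conductor `𝔠` (so that no Euler
factors are missing), and `L` is the entire continuation of its L-series. -/
def IsL (π : DihedralRep) {q : ℕ} (η : DirichletCharacter ℂ q) (L : ℂ → ℂ) : Prop :=
  (∃ 𝔠 : Ideal (𝓞 π.K), IsHecke π.K 𝔠 π.ν (twist π.ψ η)) ∧ Differentiable ℂ L ∧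
    ∀ s : ℂ, 1 < s.re → HasSum (fun 𝔞 : Ideal (𝓞 π.K) => π.ψ 𝔞 *
      η ((Ideal.absNorm 𝔞 : ℕ) : ZMod q) * ((Ideal.absNorm 𝔞 : ℕ) : ℂ) ^ (-s)) (L s)

/-- the quadratic extensions `E` of `ℚ` with `|Δ_E| < x`, as characters -/
def X (x : ℝ) : Set (Σ q : ℕ, DirichletCharacter ℂ q) := {E | IsQuadratic E.2 ∧ (E.1 : ℝ) < x}

/-- `N_{π'}(x) = #{E : |Δ_E| < x, L(1/2, π' ⊗ η_E) ≠ 0}` -/
noncomputable def Nπ (π : DihedralRep) (x : ℝ) : ℕ :=
  {E : Σ q : ℕ, DirichletCharacter ℂ q | E ∈ X x ∧ ∀ L : ℂ → ℂ, IsL π E.2 L → L (1 / 2) ≠ 0}.ncard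

/-! ### Auxiliary facts -/

lemma X_finite (x : ℝ) : (X x).Finite := by
  have h : X x ⊆ ⋃ q ∈ Finset.Icc 1 ⌊x⌋₊, Set.range (fun χ : DirichletCharacter ℂ q =>
      (⟨q, χ⟩ : Σ q : ℕ, DirichletCharacter ℂ q)) := by
    rintro ⟨q, χ⟩ ⟨h1, h2⟩
    simp only [Set.mem_iUnion]
    refine ⟨q, ?_, ⟨χ, rfl⟩⟩
    rw [Finset.mem_Icc]
    exact ⟨h1.1, Nat.le_floor h2.le⟩
  refine Set.Finite.subset (Set.Finite.biUnion (Finset.finite_toSet _) fun q hq => ?_) h
  have : NeZero q := ⟨by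
    have := (Finset.mem_Icc.1 hq).1
    omega⟩
  exact Set.finite_range _

/-! ### The main result -/

section

open Pool.Agent.U283.GF

/-- the representation number `k` -/
theorem exists_rep (k : ℕ) : ∃ π : DihedralRep,
    (∀ w, |π.ν w| = (2 * k + 1) * Real.pi / (2 * Real.log ((1 + Real.sqrt 5) / 2))) ∧
    ∀ (q : ℕ) (η : DirichletCharacter ℂ q), IsQuadratic η → ∃ L : ℂ → ℂ, IsL π η L ∧ L (1 / 2) = 0 := by
  have hR : IsTotallyReal K5 := totR fr5 root5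
  obtain ⟨D, -⟩ := exists_QF (K := K5) fr5 root5
  have h5 : ∀ p : ℕ, ¬ (p : ℤ) ∣ discr K5 → p ≠ 5 := by
    rintro p hp rfl
    exact hp (by rw [D.discr_eq]; norm_num)
  have hH : ∀ (𝔣 : Ideal (𝓞 K5)) (ψ : Ideal (𝓞 K5) →*₀ ℂ),
      Pool.Agent.Y767.IsHecke K5 𝔣 (D.nu (QF.vk k)) ψ → IsHecke K5 𝔣 (D.nu (QF.vk k)) ψ :=
    fun 𝔣 ψ h => ⟨h.ne_bot, h.supp, h.ray, h.prim⟩
  refine ⟨{
    K := K5
    degree := fr5
    real := hR
    𝔣 := Ideal.span {D.rt}
    ν := D.nu (QF.vk k)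
    ψ := D.psi k
    hecke := hH _ _ (D.psi_hecke k)
    unitary := D.sum_nu _
    central_split := fun p hp _ hd ⟨𝔭, h𝔭⟩ => D.central_split k hp (h5 p hd) h𝔭
    central_inert := fun p hp _ hd h => D.central_inert k hp (h5 p hd) h
    cuspidal := ⟨11, _, _, by norm_num, by rw [D.absNorm_rt]; norm_num, D.absNorm_el,
      D.absNorm_cj_el, D.psi_ne k⟩ }, ?_, ?_⟩
  · intro w
    have h1 := QF.vk_pos k
    change |D.nu (QF.vk k) w| = QF.vk k
    rcases D.all w with h | h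
    · rw [h, D.nu1, abs_of_pos h1]
    · rw [h, D.nu2, abs_neg, abs_of_pos h1]
  · rintro q η ⟨hq, hη, -, h2⟩
    obtain ⟨⟨𝔠, h𝔠⟩, F, hF1, hF2, hF3⟩ := D.van_all k hq hη h2
    refine ⟨F, ⟨⟨𝔠, ?_⟩, hF1, fun s hs => ?_⟩, hF3⟩
    · exact hH 𝔠 _ h𝔠
    · change HasSum (fun 𝔞 : Ideal (𝓞 K5) => D.psi k 𝔞 *
        η ((Ideal.absNorm 𝔞 : ℕ) : ZMod q) * ((Ideal.absNorm 𝔞 : ℕ) : ℂ) ^ (-s)) (F s)
      rw [hF2 s hs]
      have htop : Ideal.span {D.rt} ≠ ⊤ := D.rt_max.ne_top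
      obtain ⟨e, -, hM⟩ := (D.psi_hecke k).toIsHM.isModK (D.sum_nu _) htop
      refine (Pool.Agent.Y773.summable_LI (η := Pool.Agent.Y773.tw (D.psi k) η) ?_ hs).hasSum
      intro 𝔞
      change ‖D.psi k 𝔞 * η ((Ideal.absNorm 𝔞 : ℕ) : ZMod q)‖ ≤ 1
      rw [norm_mul]
      exact mul_le_one₀ (hM.norm_le_one 𝔞) (norm_nonneg _) (η.norm_le_one _)

end

/-- **Disproof of Q1.** For every `k` there is a dihedral cuspidal representation `π'` of
`PGL_2(𝔸_ℚ)`, with spectral parameter `(2k+1)π/(2 log((1+√5)/2))`, such that for every quadratic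
extension `E/ℚ` the function `L(s, π' ⊗ η_E)` exists and vanishes at `1/2`.  Hence
`N_{π'}(x) = 0` for all `x`, the lower limit of `N_{π'}(x)/x` is `0`, and there is no `c > 0` with
`N_{π'}(x) ≥ c x` for all large `x`. -/
theorem result (k : ℕ) : ∃ π : DihedralRep,
    (∀ w, |π.ν w| = (2 * k + 1) * Real.pi / (2 * Real.log ((1 + Real.sqrt 5) / 2))) ∧
    (∀ (q : ℕ) (η : DirichletCharacter ℂ q), IsQuadratic η →
      (∃ L : ℂ → ℂ, IsL π η L) ∧ ∀ L : ℂ → ℂ, IsL π η L → L (1 / 2) = 0) ∧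
    (∀ x : ℝ, Nπ π x = 0) ∧
    Filter.liminf (fun x : ℝ => (Nπ π x : ℝ) / x) atTop = 0 ∧
    ¬ ∃ c : ℝ, 0 < c ∧ ∀ᶠ x : ℝ in atTop, c * x ≤ Nπ π x := by
  obtain ⟨π, h1, h2⟩ := exists_rep k
  have h3 : ∀ (q : ℕ) (η : DirichletCharacter ℂ q), IsQuadratic η →
      (∃ L : ℂ → ℂ, IsL π η L) ∧ ∀ L : ℂ → ℂ, IsL π η L → L (1 / 2) = 0 := by
    intro q η hη
    obtain ⟨L, hL, hL0⟩ := h2 q η hη
    refine ⟨⟨L, hL⟩, fun L' hL' => ?_⟩
    have : L' = L := Pool.Agent.Y773.entire_eq hL'.2.1 hL.2.1 fun s hs =>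
      (hL'.2.2 s hs).unique (hL.2.2 s hs)
    rw [this]
    exact hL0
  have h4 : ∀ x : ℝ, Nπ π x = 0 := by
    intro x
    have : {E : Σ q : ℕ, DirichletCharacter ℂ q | E ∈ X x ∧
        ∀ L : ℂ → ℂ, IsL π E.2 L → L (1 / 2) ≠ 0} = ∅ := by
      rw [Set.eq_empty_iff_forall_notMem]
      rintro ⟨q, η⟩ ⟨hE, hall⟩
      obtain ⟨L, hL, hL0⟩ := h2 q η hE.1
      exact hall L hL hL0
    rw [Nπ, this, Set.ncard_empty]
  refine ⟨π, h1, h3, h4, ?_, ?_⟩
  · have : (fun x : ℝ => (Nπ π x : ℝ) / x) = fun _ => 0 := by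
      funext x
      rw [h4]
      simp
    rw [this]
    exact Filter.liminf_const 0
  · rintro ⟨c, hc, h5⟩
    obtain ⟨x, hx, hx1⟩ := (h5.and (eventually_gt_atTop 0)).exists
    rw [h4, Nat.cast_zero] at hx
    have : 0 < c * x := mul_pos hc hx1
    linarith

end Pool.Agent.Results.MP_5f72fe_nt.NoNonvanishingTwist
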